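import Pool.Agent.Work.MP_8c604c_gt.OD.JP

-- merged part: Pool.Agent.Work.MP_8c604c_gt.OL.Ins
section
/-!
Loops of speed less than two are homotopic to their inscribed quadrilaterals.

PLAN.  `lipOn_cat4`: `LipOn.ite` three times.  `cont_cat4`: `contOn_ite` three times.  `pol4`: the pieces are `lipOn_mv`; the values at the break points
come from `mv_ge` and `mv_le`; for `y ∈ Q4` the pair `(y.2.2.2, y.1)` lies in `Nb` (`swap_F`).  Continuity of loops: `B.continuousOn_mkL`, `contOn_mv`;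
membership: `mk_Lam`, `mem_Ls`, `B.mkL_apply` with `cs_zero` for the base point.
`ins4`: on `[a, a + s π / 4]` move from `c a` to `c (a + s π / 4)` with speed `l` (`lam_lip` gives `d ≤ l s π / 4 < π / 2`), then follow `c` (`lipOn_lam`).
`ins4 x 0 = c` and `ins4 x 1 = pol (vert x) l` on `[0, π]` (`B.loop_ext`, `cs_pi`).  The second homotopy lowers the speed linearly from `l` to `spd4 (vert x)`.
`poly_id`: `pull_pull'`, twice `pull_htpy'` with `ext_htpy`, `pull_id`.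
-/

noncomputable section

set_option linter.unusedSectionVars false

namespace Pool.Agent.Work.MP_8c604c_gt.OT

open Set Real Topology Pool.Agent.Work.MP_849ab0_ag.G T

variable {V : Type} [NormedAddCommGroup V] [InnerProductSpace ℝ V] [FiniteDimensional ℝ V]
  {𝕄 : Mf V}

namespace TD1

variable (D : TD1 𝕄) {N : Set V}

omit D in
/-- four pieces -/
def cat4 (f₀ f₁ f₂ f₃ : ℝ → V) (t : ℝ) : V :=
  if t ≤ π / 4 then f₀ t else if t ≤ π / 2 then f₁ t else if t ≤ 3 * π / 4 then f₂ t else f₃ t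

/-- the quadrilateral with vertices `y`, run through with speed `l` -/
def pol4 (y : V4 V) (l : ℝ) : ℝ → V :=
  cat4 (fun t => D.mv (y.1, y.2.1) (l * (t - 0))) (fun t => D.mv (y.2.1, y.2.2.1) (l * (t - π / 4)))
    (fun t => D.mv (y.2.2.1, y.2.2.2) (l * (t - π / 2)))
    fun t => D.mv (y.2.2.2, y.1) (l * (t - 3 * π / 4))

/-- the least speed -/
def spd4 (y : V4 V) : ℝ := 4 / π * max (max (D.s1 y) (D.s2 y)) (max (D.s3 y) (D.d y.2.2.2 y.1))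

/-- the loop of a quadrilateral with a speed -/
def plp (z : V4 V × ℝ) : LS V := (B.mkL (D.pol4 z.1 z.2), z.2)

/-- the loop of a quadrilateral -/
def poly (y : V4 V) : LS V := D.plp (y, D.spd4 y)

/-- replace the arc `[a, a + h]` by the geodesic -/
def arcg (x : LS V) (h a t : ℝ) : V :=
  if t ≤ a + h then D.mv (x.1 (cs a), x.1 (cs (a + h))) (x.2 * (t - a)) else x.1 (cs t)

/-- the homotopy to the inscribed quadrilateral -/
def ins4 (z : LS V × ℝ) : LS V :=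
  (B.mkL (cat4 (D.arcg z.1 (z.2 * (π / 4)) 0) (D.arcg z.1 (z.2 * (π / 4)) (π / 4))
    (D.arcg z.1 (z.2 * (π / 4)) (π / 2)) (D.arcg z.1 (z.2 * (π / 4)) (3 * π / 4))), z.1.2)

theorem lipOn_cat4 {l : ℝ} {f₀ f₁ f₂ f₃ : ℝ → V} (h₀ : D.LipOn l f₀ 0 (π / 4))
    (h₁ : D.LipOn l f₁ (π / 4) (π / 2)) (h₂ : D.LipOn l f₂ (π / 2) (3 * π / 4))
    (h₃ : D.LipOn l f₃ (3 * π / 4) π) (e₁ : f₀ (π / 4) = f₁ (π / 4)) (e₂ : f₁ (π / 2) = f₂ (π / 2))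
    (e₃ : f₂ (3 * π / 4) = f₃ (3 * π / 4)) : D.LipOn l (cat4 f₀ f₁ f₂ f₃) 0 π :=
  h₀.ite (h₁.ite (h₂.ite h₃ e₃) (e₂.trans (if_pos (by linarith [pi_pos])).symm))
    (e₁.trans (if_pos (by linarith [pi_pos])).symm)

omit D in
theorem cont_cat4 {X : Type} [TopologicalSpace X] {A : Set (X × ℝ)} {f₀ f₁ f₂ f₃ : X → ℝ → V}
    (h₀ : ContinuousOn (fun z : X × ℝ => f₀ z.1 z.2) A)
    (h₁ : ContinuousOn (fun z : X × ℝ => f₁ z.1 z.2) A)
    (h₂ : ContinuousOn (fun z : X × ℝ => f₂ z.1 z.2) A)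
    (h₃ : ContinuousOn (fun z : X × ℝ => f₃ z.1 z.2) A)
    (e₁ : ∀ z ∈ A, f₀ z.1 (π / 4) = f₁ z.1 (π / 4)) (e₂ : ∀ z ∈ A, f₁ z.1 (π / 2) = f₂ z.1 (π / 2))
    (e₃ : ∀ z ∈ A, f₂ z.1 (3 * π / 4) = f₃ z.1 (3 * π / 4)) :
    ContinuousOn (fun z : X × ℝ => cat4 (f₀ z.1) (f₁ z.1) (f₂ z.1) (f₃ z.1) z.2) A :=
  contOn_ite continuousOn_snd continuousOn_const h₀
    (contOn_ite continuousOn_snd continuousOn_const h₁
      (contOn_ite continuousOn_snd continuousOn_const h₂ h₃ fun z hz e => e ▸ e₃ z hz)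
      fun z hz e => by rw [e, if_pos (by linarith [pi_pos]), e₂ z hz])
    fun z hz e => by rw [e, if_pos (by linarith [pi_pos]), e₁ z hz]

omit D in
theorem Ins_zero (f₀ f₁ f₂ f₃ : ℝ → V) : cat4 f₀ f₁ f₂ f₃ 0 = f₀ 0 := if_pos (by positivity)

omit D in
theorem Ins_pi (f₀ f₁ f₂ f₃ : ℝ → V) : cat4 f₀ f₁ f₂ f₃ π = f₃ π := by
  rw [cat4, if_neg (by linarith [pi_pos]), if_neg (by linarith [pi_pos]),
    if_neg (by linarith [pi_pos])]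

omit D in
theorem Ins_ev {X : Type} [TopologicalSpace X] {A : Set X} {x : X → LS V} {u : X → ℝ}
    (hx : ContinuousOn x A) (hu : ContinuousOn u A) :
    ContinuousOn (fun z => (x z).1 (cs (u z))) A :=
  continuous_eval.comp_continuousOn (hx.fst.prodMk (continuous_cs.comp_continuousOn hu))

omit D in
theorem Ins_sl {X : Type} [TopologicalSpace X] {A : Set X} {F : X × ℝ → V}
    (hF : ContinuousOn F (A ×ˢ Icc 0 π)) {p : X} (hp : p ∈ A) :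
    ContinuousOn (fun t => F (p, t)) (Icc 0 π) :=
  hF.comp (continuousOn_const.prodMk continuousOn_id) fun _ ht => ⟨hp, ht⟩

theorem arc_nb {x : LS V} (hx : x ∈ D.Lam) {h : ℝ} (h0 : 0 ≤ h) (h1 : x.2 * h < π / 2) (a : ℝ) :
    (x.1 (cs a), x.1 (cs (a + h))) ∈ D.Nb :=
  D.nb (hx.1 _) (hx.1 _)
    ((lam_lip hx (le_add_of_nonneg_right h0)).trans_lt (by rwa [add_sub_cancel_left]))

theorem Ins_end {x : LS V} (hx : x ∈ D.Lam) {h : ℝ} (h0 : 0 ≤ h) (h1 : x.2 * h < π / 2) (a : ℝ) :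
    D.mv (x.1 (cs a), x.1 (cs (a + h))) (x.2 * (a + h - a)) = x.1 (cs (a + h)) :=
  D.mv_ge (D.arc_nb hx h0 h1 a) (lam_lip hx (le_add_of_nonneg_right h0))

theorem lipOn_arc {x : LS V} (hx : x ∈ D.Lam) {h : ℝ} (h0 : 0 ≤ h) (h1 : x.2 * h < π / 2) (a b : ℝ) :
    D.LipOn x.2 (D.arcg x h a) a b :=
  (lipOn_mv (D.arc_nb hx h0 h1 a) hx.2.1.1 a a (a + h)).ite (lipOn_lam hx (a + h) b)
    (D.Ins_end hx h0 h1 a)

theorem arc_left {x : LS V} (hx : x ∈ D.Lam) {h : ℝ} (h0 : 0 ≤ h) (h1 : x.2 * h < π / 2) (a : ℝ) :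
    D.arcg x h a a = x.1 (cs a) :=
  (if_pos (le_add_of_nonneg_right h0)).trans
    (D.mv_le (D.arc_nb hx h0 h1 a) (by rw [sub_self, mul_zero]))

theorem arc_right {x : LS V} (hx : x ∈ D.Lam) {h : ℝ} (h0 : 0 ≤ h) (h1 : x.2 * h < π / 2) {a t : ℝ}
    (ht : a + h ≤ t) : D.arcg x h a t = x.1 (cs t) := by
  rcases ht.eq_or_lt with rfl | k
  · exact (if_pos le_rfl).trans (D.Ins_end hx h0 h1 a)
  · exact if_neg k.not_ge

theorem cont_arc {X : Type} [TopologicalSpace X] {A : Set X} {x : X → LS V} {h t : X → ℝ}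
    (hx : ContinuousOn x A) (hh : ContinuousOn h A) (ht : ContinuousOn t A)
    (m : ∀ z ∈ A, x z ∈ D.Lam ∧ 0 ≤ h z ∧ (x z).2 * h z < π / 2) (a : ℝ) :
    ContinuousOn (fun z => D.arcg (x z) (h z) a (t z)) A :=
  contOn_ite ht (continuousOn_const.add hh)
    (D.contOn_mv (Ins_ev hx continuousOn_const) (Ins_ev hx (continuousOn_const.add hh))
      (hx.snd.mul (ht.sub continuousOn_const))
      fun z hz => D.arc_nb (m z hz).1 (m z hz).2.1 (m z hz).2.2 a) (Ins_ev hx ht)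
    fun z hz e => by
      rw [e]
      exact D.Ins_end (m z hz).1 (m z hz).2.1 (m z hz).2.2 a

theorem Ins_nb {y : V4 V} (h : y ∈ D.Q4 N) : (y.2.2.2, y.1) ∈ D.Nb :=
  ⟨⟨h.1.2.2.2.1.2, h.1.2.1.1.1⟩, fun k => h.2 (D.swap_F k)⟩

theorem Ins_spd {y : V4 V} {l : ℝ} : D.spd4 y ≤ l ↔ (D.s1 y ≤ l * (π / 4) ∧ D.s2 y ≤ l * (π / 4)) ∧
    D.s3 y ≤ l * (π / 4) ∧ D.d y.2.2.2 y.1 ≤ l * (π / 4) := by
  rw [spd4, mul_comm, ← le_div_iff₀ (by positivity), div_div_eq_mul_div, mul_div_assoc, max_le_iff,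
    max_le_iff, max_le_iff]

theorem cont_spd4 : ContinuousOn D.spd4 (D.Q4 N) :=
  continuousOn_const.mul
    (((D.cont_s1.mono sdiff_subset).sup (D.cont_s2.mono sdiff_subset)).sup
      ((D.cont_s3.mono sdiff_subset).sup (D.contOn_d (by fun_prop) (by fun_prop)
        (fun _ h => (D.Ins_nb h).1.1) fun _ h => (D.Ins_nb h).1.2)))

theorem spd4_lt {y : V4 V} (h : y ∈ D.Q4 N) : D.spd4 y < 2 := by
  obtain ⟨k1, k2, k3⟩ := D.s_mem h.1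
  refine (mul_lt_mul_of_pos_left (max_lt (max_lt k1.2 k2.2) (max_lt k3.2 (D.d_Nb (D.Ins_nb h))))
    (by positivity)).trans_eq ?_
  field_simp
  norm_num

theorem Ins_jn {p q r : V} {l a b : ℝ} (h : (p, q) ∈ D.Nb) (h' : (q, r) ∈ D.Nb)
    (k : D.d p q ≤ l * (π / 4)) (e : b - a = π / 4) :
    D.mv (p, q) (l * (b - a)) = D.mv (q, r) (l * (b - b)) := by
  rw [e, D.mv_ge h k, sub_self, mul_zero, D.mv_le h' le_rfl]

theorem Ins_p0 {y : V4 V} (h : y ∈ D.Q4 N) (l : ℝ) : D.pol4 y l 0 = y.1 :=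
  (Ins_zero _ _ _ _).trans (D.mv_le h.1.2.1 (by rw [sub_self, mul_zero]))

theorem Ins_p1 {y : V4 V} (h : y ∈ D.Q4 N) {l : ℝ} (k : D.spd4 y ≤ l) :
    D.pol4 y l 0 = D.pol4 y l π := by
  rw [D.Ins_p0 h l, pol4, Ins_pi, D.mv_ge (D.Ins_nb h) ((D.Ins_spd.1 k).2.2.trans_eq (by ring))]

theorem Ins_pc : ContinuousOn (fun w : (V4 V × ℝ) × ℝ => D.pol4 w.1.1 w.1.2 w.2)
    ({z | z.1 ∈ D.Q4 N ∧ D.spd4 z.1 ≤ z.2} ×ˢ Icc 0 π) :=
  cont_cat4 (f₀ := fun z t => D.mv (z.1.1, z.1.2.1) (z.2 * (t - 0)))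
    (f₁ := fun z t => D.mv (z.1.2.1, z.1.2.2.1) (z.2 * (t - π / 4)))
    (f₂ := fun z t => D.mv (z.1.2.2.1, z.1.2.2.2) (z.2 * (t - π / 2)))
    (f₃ := fun z : V4 V × ℝ => fun t => D.mv (z.1.2.2.2, z.1.1) (z.2 * (t - 3 * π / 4)))
    (D.contOn_mv (by fun_prop) (by fun_prop) (by fun_prop) fun _ h => h.1.1.1.2.1)
    (D.contOn_mv (by fun_prop) (by fun_prop) (by fun_prop) fun _ h => h.1.1.1.2.2.1)
    (D.contOn_mv (by fun_prop) (by fun_prop) (by fun_prop) fun _ h => h.1.1.1.2.2.2)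
    (D.contOn_mv (by fun_prop) (by fun_prop) (by fun_prop) fun _ h => D.Ins_nb h.1.1)
    (fun _ h => D.Ins_jn h.1.1.1.2.1 h.1.1.1.2.2.1 (D.Ins_spd.1 h.1.2).1.1 (by ring))
    (fun _ h => D.Ins_jn h.1.1.1.2.2.1 h.1.1.1.2.2.2 (D.Ins_spd.1 h.1.2).1.2 (by ring))
    fun _ h => D.Ins_jn h.1.1.1.2.2.2 (D.Ins_nb h.1.1) (D.Ins_spd.1 h.1.2).2.1 (by ring)

theorem Ins_pa {y : V4 V} (h : y ∈ D.Q4 N) {l t : ℝ} (k : D.spd4 y ≤ l) (ht : t ∈ Icc 0 π) :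
    (D.plp (y, l)).1 (cs t) = D.pol4 y l t :=
  B.mkL_apply (Ins_sl D.Ins_pc (p := (y, l)) ⟨h, k⟩) (D.Ins_p1 h k) ht

theorem cont_plp : ContinuousOn D.plp {z | z.1 ∈ D.Q4 N ∧ D.spd4 z.1 ≤ z.2} :=
  (B.continuousOn_mkL D.Ins_pc fun _ h => D.Ins_p1 h.1 h.2).prodMk continuousOn_snd

theorem plp_mem {z : V4 V × ℝ} (h : z.1 ∈ D.Q4 N) (k : z.2 ∈ Ico (D.spd4 z.1) 2) :
    D.plp z ∈ D.LsB N 2 := by
  obtain ⟨⟨k1, k2⟩, k3, -⟩ := D.Ins_spd.1 k.1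
  have l0 : 0 ≤ z.2 := nonneg_of_mul_nonneg_left ((D.s_mem h.1).1.1.trans k1) (by positivity)
  refine ⟨D.mem_Ls.2 ⟨mk_Lam (Ins_sl D.Ins_pc (p := z) ⟨h, k.1⟩) (D.Ins_p1 h k.1) ⟨l0, k.2.le⟩
    (D.lipOn_cat4 (lipOn_mv h.1.2.1 l0 _ _ _) (lipOn_mv h.1.2.2.1 l0 _ _ _)
      (lipOn_mv h.1.2.2.2 l0 _ _ _) (lipOn_mv (D.Ins_nb h) l0 _ _ _)
      (D.Ins_jn h.1.2.1 h.1.2.2.1 k1 (by ring)) (D.Ins_jn h.1.2.2.1 h.1.2.2.2 k2 (by ring))
      (D.Ins_jn h.1.2.2.2 (D.Ins_nb h) k3 (by ring))), k.2⟩, ?_⟩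
  change (D.plp (z.1, z.2)).1 1 ∈ N
  rw [← cs_zero, D.Ins_pa h k.1 (left_mem_Icc.2 pi_pos.le), D.Ins_p0 h]
  exact h.1.1

theorem Ins_h {x : LS V} (h : x ∈ D.LsB N 2) {s : ℝ} (hs : s ∈ Icc (0 : ℝ) 1) :
    x ∈ D.Lam ∧ 0 ≤ s * (π / 4) ∧ x.2 * (s * (π / 4)) < π / 2 := by
  obtain ⟨k1, k2⟩ := D.mem_Ls.1 h.1
  have k3 : x.2 * s < 2 := (mul_le_of_le_one_right k1.2.1.1 hs.2).trans_lt k2
  exact ⟨k1, mul_nonneg hs.1 (by positivity), by nlinarith [pi_pos]⟩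

theorem vert_mem {x : LS V} (h : x ∈ D.LsB N 2) : vert x ∈ D.Q4 N ∧ D.spd4 (vert x) ≤ x.2 := by
  obtain ⟨hx, -, k⟩ := D.Ins_h h (right_mem_Icc.2 zero_le_one)
  rw [one_mul] at k
  have d : ∀ a b, b - a = π / 4 → D.d (x.1 (cs a)) (x.1 (cs b)) ≤ x.2 * (π / 4) := fun a b e =>
    e ▸ lam_lip hx (by linarith [pi_pos])
  have k1 := d 0 (π / 4) (by ring)
  have k2 := d (π / 4) (π / 2) (by ring)
  have k3 := d (π / 2) (3 * π / 4) (by ring)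
  have k4 := d (3 * π / 4) π (by ring)
  rw [cs_zero] at k1
  rw [cs_pi] at k4
  exact ⟨⟨⟨h.2, D.nb (hx.1 _) (hx.1 _) (k1.trans_lt k), D.nb (hx.1 _) (hx.1 _) (k2.trans_lt k),
    D.nb (hx.1 _) (hx.1 _) (k3.trans_lt k)⟩,
    fun e => (D.nb (hx.1 _) (hx.1 _) (k4.trans_lt k)).2 (D.swap_F e)⟩,
    D.Ins_spd.2 ⟨⟨k1, k2⟩, k3, k4⟩⟩

theorem Ins_r {x : LS V} (h : x ∈ D.LsB N 2) {s a b : ℝ} (hs : s ∈ Icc (0 : ℝ) 1)
    (e : a + π / 4 = b) : D.arcg x (s * (π / 4)) a b = x.1 (cs b) :=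
  let ⟨k1, k2, k3⟩ := D.Ins_h h hs
  D.arc_right k1 k2 k3 (e ▸ add_le_add_right (mul_le_of_le_one_left (by positivity) hs.2) a)

theorem Ins_l {x : LS V} (h : x ∈ D.LsB N 2) {s : ℝ} (hs : s ∈ Icc (0 : ℝ) 1) (a : ℝ) :
    D.arcg x (s * (π / 4)) a a = x.1 (cs a) :=
  let ⟨k1, k2, k3⟩ := D.Ins_h h hs
  D.arc_left k1 k2 k3 a

/-- the curve of the homotopy -/
def Ins_c (z : LS V × ℝ) : ℝ → V :=
  cat4 (D.arcg z.1 (z.2 * (π / 4)) 0) (D.arcg z.1 (z.2 * (π / 4)) (π / 4))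
    (D.arcg z.1 (z.2 * (π / 4)) (π / 2)) (D.arcg z.1 (z.2 * (π / 4)) (3 * π / 4))

theorem Ins_c0 {x : LS V} (h : x ∈ D.LsB N 2) {s : ℝ} (hs : s ∈ Icc (0 : ℝ) 1) :
    D.Ins_c (x, s) 0 = x.1 1 := by
  rw [Ins_c, Ins_zero, D.Ins_l h hs, cs_zero]

theorem Ins_c1 {x : LS V} (h : x ∈ D.LsB N 2) {s : ℝ} (hs : s ∈ Icc (0 : ℝ) 1) :
    D.Ins_c (x, s) 0 = D.Ins_c (x, s) π := by
  rw [D.Ins_c0 h hs, Ins_c, Ins_pi, D.Ins_r h hs (by ring), cs_pi]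

theorem Ins_cc : ContinuousOn (fun w : (LS V × ℝ) × ℝ => D.Ins_c w.1 w.2)
    ((D.LsB N 2 ×ˢ Icc 0 1) ×ˢ Icc 0 π) := by
  have k : ∀ a, ContinuousOn (fun w : (LS V × ℝ) × ℝ => D.arcg w.1.1 (w.1.2 * (π / 4)) a w.2)
      ((D.LsB N 2 ×ˢ Icc 0 1) ×ˢ Icc 0 π) :=
    D.cont_arc (by fun_prop) (by fun_prop) (by fun_prop) fun _ h => D.Ins_h h.1.1 h.1.2
  exact cont_cat4 (f₀ := fun z => D.arcg z.1 (z.2 * (π / 4)) 0)
    (f₁ := fun z => D.arcg z.1 (z.2 * (π / 4)) (π / 4))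
    (f₂ := fun z => D.arcg z.1 (z.2 * (π / 4)) (π / 2))
    (f₃ := fun z : LS V × ℝ => D.arcg z.1 (z.2 * (π / 4)) (3 * π / 4)) (k _) (k _) (k _) (k _)
    (fun _ h => (D.Ins_r h.1.1 h.1.2 (by ring)).trans (D.Ins_l h.1.1 h.1.2 _).symm)
    (fun _ h => (D.Ins_r h.1.1 h.1.2 (by ring)).trans (D.Ins_l h.1.1 h.1.2 _).symm)
    fun _ h => (D.Ins_r h.1.1 h.1.2 (by ring)).trans (D.Ins_l h.1.1 h.1.2 _).symm

theorem Ins_ca {x : LS V} (h : x ∈ D.LsB N 2) {s t : ℝ} (hs : s ∈ Icc (0 : ℝ) 1)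
    (ht : t ∈ Icc 0 π) : (D.ins4 (x, s)).1 (cs t) = D.Ins_c (x, s) t :=
  B.mkL_apply (Ins_sl D.Ins_cc (p := (x, s)) ⟨h, hs⟩) (D.Ins_c1 h hs) ht

theorem cont_ins : ContinuousOn D.ins4 (D.LsB N 2 ×ˢ Icc 0 1) :=
  (B.continuousOn_mkL D.Ins_cc fun _ h => D.Ins_c1 h.1 h.2).prodMk continuousOn_fst.snd

theorem ins_mem {x : LS V} (h : x ∈ D.LsB N 2) {s : ℝ} (hs : s ∈ Icc (0 : ℝ) 1) :
    D.ins4 (x, s) ∈ D.LsB N 2 := by
  obtain ⟨k1, k2, k3⟩ := D.Ins_h h hs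
  refine ⟨D.mem_Ls.2 ⟨mk_Lam (Ins_sl D.Ins_cc (p := (x, s)) ⟨h, hs⟩) (D.Ins_c1 h hs) k1.2.1
    (D.lipOn_cat4 (D.lipOn_arc k1 k2 k3 _ _) (D.lipOn_arc k1 k2 k3 _ _) (D.lipOn_arc k1 k2 k3 _ _)
      (D.lipOn_arc k1 k2 k3 _ _) ((D.Ins_r h hs (by ring)).trans (D.Ins_l h hs _).symm)
      ((D.Ins_r h hs (by ring)).trans (D.Ins_l h hs _).symm)
      ((D.Ins_r h hs (by ring)).trans (D.Ins_l h hs _).symm)), (D.mem_Ls.1 h.1).2⟩, ?_⟩
  change (D.ins4 (x, s)).1 1 ∈ N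
  rw [← cs_zero, D.Ins_ca h hs (left_mem_Icc.2 pi_pos.le), D.Ins_c0 h hs]
  exact h.2

theorem ins_zero {x : LS V} (h : x ∈ D.LsB N 2) : D.ins4 (x, 0) = x := by
  obtain ⟨k1, k2, k3⟩ := D.Ins_h h (left_mem_Icc.2 zero_le_one)
  refine Prod.ext (B.loop_ext fun t ht => ?_) rfl
  rw [D.Ins_ca h (left_mem_Icc.2 zero_le_one) ht, Ins_c, cat4]
  split_ifs <;> exact D.arc_right k1 k2 k3 (by linarith [ht.1])

theorem ins_one {x : LS V} (h : x ∈ D.LsB N 2) : D.ins4 (x, 1) = D.plp (vert x, x.2) := by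
  have k : ∀ a b t, a + π / 4 = b → t ≤ b → D.arcg x (1 * (π / 4)) a t =
      D.mv (x.1 (cs a), x.1 (cs b)) (x.2 * (t - a)) := fun a b t e ht => by
    rw [arcg, one_mul, e, if_pos ht]
  refine Prod.ext (B.loop_ext fun t ht => ?_) rfl
  rw [D.Ins_ca h (right_mem_Icc.2 zero_le_one) ht, D.Ins_pa (D.vert_mem h).1 (D.vert_mem h).2 ht,
    Ins_c, pol4, cat4, cat4]
  split_ifs with h1 h2 h3
  · rw [k _ _ _ (zero_add _) h1, cs_zero]
    rfl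
  · exact k _ _ _ (by ring) h2
  · exact k _ _ _ (by ring) h3
  · rw [k _ π _ (by ring) ht.2, cs_pi]
    rfl

theorem ok_vert : Ok vert (D.LsB N 2) univ (D.Q4 N) univ :=
  .of_mem (.of_continuous continuous_vert _) (fun _ h => (D.vert_mem h).1) fun _ _ _ => trivial

theorem ok_poly (hB : IsClosed N) : Ok D.poly (D.Q4 N) univ (D.LsB N 2) univ :=
  .of_mem (.of_continuousOn (D.lc_Q4 hB)
    (D.cont_plp.comp (continuousOn_id.prodMk D.cont_spd4) fun _ h => ⟨h, le_rfl⟩))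
    (fun _ h => D.plp_mem h ⟨le_rfl, D.spd4_lt h⟩) fun _ _ _ => trivial

theorem poly_id (hB : IsClosed N) (a : H (D.LsB N 2) univ) :
    pull vert (D.LsB N 2) univ (pull D.poly (D.Q4 N) univ a) = a := by
  have m : ∀ x ∈ D.LsB N 2, ∀ t ∈ Icc (0 : ℝ) 1,
      D.spd4 (vert x) + t * (x.2 - D.spd4 (vert x)) ∈ Ico (D.spd4 (vert x)) 2 := fun x hx t ht => by
    have k := sub_nonneg.2 (D.vert_mem hx).2
    exact ⟨le_add_of_nonneg_right (mul_nonneg ht.1 k), by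
      linarith [mul_le_of_le_one_left k ht.2, (D.mem_Ls.1 hx.1).2]⟩
  have c : ContinuousOn (fun z : LS V × ℝ => D.spd4 (vert z.1)) (D.LsB N 2 ×ˢ Icc 0 1) :=
    D.cont_spd4.comp (continuous_vert.comp continuous_fst).continuousOn
      fun _ h => (D.vert_mem h.1).1
  rw [pull_pull' D.ok_vert (D.ok_poly hB) (F := fun x => D.poly (vert x)) fun _ _ => rfl,
    pull_htpy' (g := fun x => D.plp (vert x, x.2))
      (F := fun z => D.plp (vert z.1, D.spd4 (vert z.1) + z.2 * (z.1.2 - D.spd4 (vert z.1))))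
      (ext_htpy (D.lc_LsB hB 2) (D.cont_plp.comp
        ((continuous_vert.comp continuous_fst).continuousOn.prodMk
          (c.add (continuousOn_snd.mul (continuousOn_fst.snd.sub c))))
        fun z h => ⟨(D.vert_mem h.1).1, (m _ h.1 _ h.2).1⟩))
      (fun x hx t ht => D.plp_mem (D.vert_mem hx).1 (m x hx t ht)) (fun _ _ _ _ _ => mem_univ _)
      (fun x _ => by simp only [zero_mul, add_zero, poly])
      (fun x _ => by simp only [one_mul, add_sub_cancel]),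
    ← pull_htpy' (f := id) (ext_htpy (D.lc_LsB hB 2) D.cont_ins) (fun x hx t ht => D.ins_mem hx ht)
      (fun _ _ _ _ _ => mem_univ _) (fun x hx => D.ins_zero hx) fun x hx => D.ins_one hx, pull_id]

end TD1

end Pool.Agent.Work.MP_8c604c_gt.OT
end
end

-- merged part: Pool.Agent.Work.MP_8c604c_gt.OL.L1
section
/-!
Loops of speed less than one retract onto the constant loops.

PLAN.  `ins2` replaces the arcs `[0, s π / 2]` and `[π / 2, π / 2 + s π / 2]` by geodesics (`lipOn_arc`, `arc_left`, `arc_right`, `cont_arc`, `LipOn.ite`,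
`contOn_ite`, `B.continuousOn_mkL`, `mk_Lam`); `big2` shrinks the inscribed bigon to the base point (`lam_nb`, `lam_d`, `mv_lip`, `lipOn_mv`, `mv_self`), then
the speed goes to zero (`const_Lam`).  `Ls1_id`: three times `pull_htpy'`, `pull_pull'`, `pull_id`.
-/

noncomputable section

set_option linter.unusedSectionVars false

namespace Pool.Agent.Work.MP_8c604c_gt.OT

open Set Real Topology Pool.Agent.Work.MP_849ab0_ag.G T

variable {V : Type} [NormedAddCommGroup V] [InnerProductSpace ℝ V] [FiniteDimensional ℝ V]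
  {𝕄 : Mf V}

/-- the constant loop -/
def cst (p : V) : LS V := (ContinuousMap.const Circle p, 0)

theorem continuous_cst : Continuous (cst : V → LS V) :=
  ContinuousMap.continuous_const'.prodMk continuous_const

namespace TD1

variable (D : TD1 𝕄) {N : Set V} {r : ℝ}

/-- the homotopy to the inscribed bigon -/
def ins2 (z : LS V × ℝ) : LS V :=
  (B.mkL fun t => if t ≤ π / 2 then D.arcg z.1 (z.2 * (π / 2)) 0 t
    else D.arcg z.1 (z.2 * (π / 2)) (π / 2) t, z.1.2)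

/-- the moving vertex -/
def bv (z : LS V × ℝ) : V :=
  D.mv (z.1.1 1, z.1.1 (cs (π / 2))) (z.2 * D.d (z.1.1 1) (z.1.1 (cs (π / 2))))

/-- the shrinking bigon -/
def big2 (z : LS V × ℝ) : LS V :=
  (B.mkL fun t => if t ≤ π / 2 then D.mv (z.1.1 1, D.bv z) (z.1.2 * (t - 0))
    else D.mv (D.bv z, z.1.1 1) (z.1.2 * (t - π / 2)), z.1.2)

theorem ok_cst (hN : N ⊆ 𝕄.M) (hr : 0 < r) : Ok cst N univ (D.LsB N r) univ :=
  .of_mem (.of_continuous continuous_cst _)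
    (fun _ h => ⟨D.mem_Ls.2 ⟨D.const_Lam (hN h) ⟨le_rfl, zero_le_two⟩, hr⟩, h⟩) fun _ _ _ => trivial

theorem cst_bas (hN : N ⊆ 𝕄.M) (hr : 0 < r) (m : H N univ) :
    pull cst N univ (pull bas (D.LsB N r) univ m) = m :=
  (pull_pull' (F := id) (D.ok_cst hN hr) (D.ok_bas r) (fun _ _ => rfl) m).trans (pull_id m)

theorem L1_htpy (hN : IsClosed N) {f₀ f₁ : LS V × ℝ → ℝ → V}
    (c₀ : ContinuousOn (fun w : (LS V × ℝ) × ℝ => f₀ w.1 w.2) ((D.LsB N r ×ˢ Icc 0 1) ×ˢ Icc 0 π))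
    (c₁ : ContinuousOn (fun w : (LS V × ℝ) × ℝ => f₁ w.1 w.2) ((D.LsB N r ×ˢ Icc 0 1) ×ˢ Icc 0 π))
    (l : ∀ z ∈ D.LsB N r ×ˢ Icc (0 : ℝ) 1, D.LipOn z.1.2 (f₀ z) 0 (π / 2) ∧
      D.LipOn z.1.2 (f₁ z) (π / 2) π ∧ f₀ z 0 = z.1.1 1 ∧ f₀ z (π / 2) = f₁ z (π / 2) ∧
        f₁ z π = z.1.1 1) {f g : LS V → LS V}
    (e₀ : ∀ x ∈ D.LsB N r, ∀ c : LM V, (∀ t ∈ Icc 0 π,
      c (cs t) = if t ≤ π / 2 then f₀ (x, 0) t else f₁ (x, 0) t) → (c, x.2) = f x)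
    (e₁ : ∀ x ∈ D.LsB N r,
      (B.mkL fun t => if t ≤ π / 2 then f₀ (x, 1) t else f₁ (x, 1) t, x.2) = g x)
    (a : H (D.LsB N r) univ) : pull f (D.LsB N r) univ a = pull g (D.LsB N r) univ a := by
  have hp : ¬π ≤ π / 2 := not_le.2 (half_lt_self pi_pos)
  have c : ContinuousOn (fun w : (LS V × ℝ) × ℝ => if w.2 ≤ π / 2 then f₀ w.1 w.2 else f₁ w.1 w.2)
      ((D.LsB N r ×ˢ Icc 0 1) ×ˢ Icc 0 π) :=
    contOn_ite continuousOn_snd continuousOn_const c₀ c₁ fun w hw e => by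
      rw [e]; exact (l _ hw.1).2.2.2.1
  have c' : ∀ z ∈ D.LsB N r ×ˢ Icc (0 : ℝ) 1,
      ContinuousOn (fun t => if t ≤ π / 2 then f₀ z t else f₁ z t) (Icc 0 π) := fun z hz =>
    c.comp (f := fun t => (z, t)) (by fun_prop) fun t ht => ⟨hz, ht⟩
  have e0 : ∀ z ∈ D.LsB N r ×ˢ Icc (0 : ℝ) 1,
      (if (0 : ℝ) ≤ π / 2 then f₀ z 0 else f₁ z 0) = z.1.1 1 := fun z hz => by
    rw [if_pos pi_div_two_pos.le, (l z hz).2.2.1]
  have e : ∀ z ∈ D.LsB N r ×ˢ Icc (0 : ℝ) 1, (if (0 : ℝ) ≤ π / 2 then f₀ z 0 else f₁ z 0) =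
      if π ≤ π / 2 then f₀ z π else f₁ z π := fun z hz => by
    rw [e0 z hz, if_neg hp, (l z hz).2.2.2.2]
  have ap := fun z hz t ht => B.mkL_apply (c' z hz) (e z hz) (t := t) ht
  refine LinearMap.congr_fun (pull_htpy'
    (F := fun z => (B.mkL fun t => if t ≤ π / 2 then f₀ z t else f₁ z t, z.1.2))
    (ext_htpy (D.lc_LsB hN r) ((B.continuousOn_mkL c e).prodMk (by fun_prop)))
    (fun x hx s hs => ?_) (fun _ _ _ _ _ => trivial) (fun x hx => ?_) fun x hx => ?_) a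
  · have hz : (x, s) ∈ D.LsB N r ×ˢ Icc (0 : ℝ) 1 := ⟨hx, hs⟩
    have k := D.mem_Ls.1 hx.1
    refine ⟨D.mem_Ls.2 ⟨mk_Lam (c' _ hz) (e _ hz) k.1.2.1
      ((l _ hz).1.ite (l _ hz).2.1 (l _ hz).2.2.2.1), k.2⟩, ?_⟩
    have := ap _ hz 0 ⟨le_rfl, pi_pos.le⟩
    rw [B.cs_zero, e0 _ hz] at this
    exact (this ▸ hx.2 : B.mkL (fun t => if t ≤ π / 2 then f₀ (x, s) t else f₁ (x, s) t) 1 ∈ N)
  · exact e₀ x hx _ (ap (x, 0) ⟨hx, left_mem_Icc.2 zero_le_one⟩)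
  · exact e₁ x hx

omit D in
theorem L1_congr {c c' : ℝ → V} (h : EqOn c c' (Icc 0 π)) : B.mkL c = B.mkL c' := by
  have e : (fun θ => c (B.ang θ)) = fun θ => c' (B.ang θ) := funext fun θ => h (B.ang_mem θ)
  unfold B.mkL
  by_cases k : Continuous fun θ => c (B.ang θ)
  · rw [dif_pos k, dif_pos (e ▸ k)]
    exact ContinuousMap.ext (congrFun e)
  · rw [dif_neg k, dif_neg (e ▸ k), h ⟨le_rfl, pi_pos.le⟩]

theorem L1_arc (hr : r ≤ 1) {z : LS V × ℝ} (hz : z ∈ D.LsB N r ×ˢ Icc (0 : ℝ) 1) :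
    z.1 ∈ D.Lam ∧ 0 ≤ z.2 * (π / 2) ∧ z.1.2 * (z.2 * (π / 2)) < π / 2 := by
  have k := D.mem_Ls.1 hz.1.1
  refine ⟨k.1, mul_nonneg hz.2.1 pi_div_two_pos.le, ?_⟩
  rw [← mul_assoc]
  exact mul_lt_of_lt_one_left pi_div_two_pos
    ((mul_le_of_le_one_right k.1.2.1.1 hz.2.2).trans_lt (k.2.trans_le hr))

theorem L1_bv (hr : r ≤ 1) {z : LS V × ℝ} (hz : z ∈ D.LsB N r ×ˢ Icc (0 : ℝ) 1) :
    ((z.1.1 1, D.bv z) ∈ D.Nb ∧ D.d (z.1.1 1) (D.bv z) ≤ z.1.2 * (π / 2)) ∧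
      (D.bv z, z.1.1 1) ∈ D.Nb ∧ D.d (D.bv z) (z.1.1 1) ≤ z.1.2 * (π / 2) := by
  have k := D.mem_Ls.1 hz.1.1
  have nb := lam_nb k.1 (k.2.trans_le hr) 1 (cs (π / 2))
  have d0 := D.d_nonneg nb.1.1 nb.1.2
  have d1 := (mul_le_of_le_one_left d0 hz.2.2).trans (lam_d k.1 1 (cs (π / 2)))
  have a := D.mv_lip nb 0 (z.2 * D.d (z.1.1 1) (z.1.1 (cs (π / 2))))
  have b := D.mv_lip nb (z.2 * D.d (z.1.1 1) (z.1.1 (cs (π / 2)))) 0
  rw [D.mv_le nb le_rfl, zero_sub, abs_neg, abs_of_nonneg (mul_nonneg hz.2.1 d0)] at a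
  rw [D.mv_le nb le_rfl, sub_zero, abs_of_nonneg (mul_nonneg hz.2.1 d0)] at b
  have lt := mul_lt_of_lt_one_left pi_div_two_pos (k.2.trans_le hr)
  exact ⟨⟨D.nb nb.1.1 (D.mv_mem nb _) ((a.trans d1).trans_lt lt), a.trans d1⟩,
    D.nb (D.mv_mem nb _) nb.1.1 ((b.trans d1).trans_lt lt), b.trans d1⟩

theorem L1_cbv (hr : r ≤ 1) : ContinuousOn D.bv (D.LsB N r ×ˢ Icc (0 : ℝ) 1) :=
  have nb : ∀ z ∈ D.LsB N r ×ˢ Icc (0 : ℝ) 1, (z.1.1 1, z.1.1 (cs (π / 2))) ∈ D.Nb := fun _ hz =>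
    lam_nb (D.mem_Ls.1 hz.1.1).1 ((D.mem_Ls.1 hz.1.1).2.trans_le hr) _ _
  D.contOn_mv (by fun_prop) (by fun_prop) (continuousOn_snd.mul (D.contOn_d (by fun_prop)
    (by fun_prop) (fun z hz => (nb z hz).1.1) fun z hz => (nb z hz).1.2)) nb

theorem Lsr_id (hN : IsClosed N) (h : N ⊆ 𝕄.M) (h0 : 0 < r) (hr : r ≤ 1) (a : H (D.LsB N r) univ) :
    pull bas (D.LsB N r) univ (pull cst N univ a) = a := by
  have h2 : π / 2 + π / 2 = π := add_halves π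
  have s1 := D.L1_htpy hN (f₀ := fun z => D.arcg z.1 (z.2 * (π / 2)) 0)
    (f₁ := fun z => D.arcg z.1 (z.2 * (π / 2)) (π / 2))
    (D.cont_arc (by fun_prop) (by fun_prop) (by fun_prop) (fun w hw => D.L1_arc hr hw.1) 0)
    (D.cont_arc (by fun_prop) (by fun_prop) (by fun_prop) (fun w hw => D.L1_arc hr hw.1) (π / 2))
    (fun z hz => by
      obtain ⟨k1, k2, k3⟩ := D.L1_arc hr hz
      have k4 := mul_le_of_le_one_left pi_div_two_pos.le hz.2.2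
      refine ⟨D.lipOn_arc k1 k2 k3 _ _, D.lipOn_arc k1 k2 k3 _ _, ?_, ?_, ?_⟩
      · rw [D.arc_left k1 k2 k3, B.cs_zero]
      · rw [D.arc_left k1 k2 k3, D.arc_right k1 k2 k3 (by linarith)]
      · rw [D.arc_right k1 k2 k3 (by linarith), B.cs_pi])
    (f := id) (g := fun x => D.big2 (x, 1))
    (fun x hx c hc => Prod.ext (B.loop_ext fun t ht => by
      obtain ⟨k1, k2, k3⟩ := D.L1_arc hr (z := (x, 0)) ⟨hx, left_mem_Icc.2 zero_le_one⟩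
      rw [hc t ht]
      split_ifs with k
      · exact D.arc_right k1 k2 k3 (by simpa using ht.1)
      · exact D.arc_right k1 k2 k3 (by simpa using (not_le.1 k).le)) rfl)
    (fun x hx => by
      have k := D.mem_Ls.1 hx.1
      have e : D.bv (x, 1) = x.1 (cs (π / 2)) :=
        D.mv_ge (lam_nb k.1 (k.2.trans_le hr) _ _) (one_mul _).ge
      unfold big2
      refine congrArg (fun c => (c, x.2)) (L1_congr fun t ht => ?_)
      simp only [arcg, e, one_mul, zero_add, h2, B.cs_zero, B.cs_pi, if_pos ht.2]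
      split_ifs <;> rfl) a
  have c := D.L1_cbv (N := N) hr
  have c' : ContinuousOn (fun w : (LS V × ℝ) × ℝ => D.bv w.1) ((D.LsB N r ×ˢ Icc 0 1) ×ˢ Icc 0 π) :=
    c.comp continuousOn_fst fun _ hw => hw.1
  have s2 := D.L1_htpy hN (f₀ := fun z t => D.mv (z.1.1 1, D.bv z) (z.1.2 * (t - 0)))
    (f₁ := fun z t => D.mv (D.bv z, z.1.1 1) (z.1.2 * (t - π / 2)))
    (D.contOn_mv (by fun_prop) c' (by fun_prop) fun w hw => (D.L1_bv hr hw.1).1.1)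
    (D.contOn_mv c' (by fun_prop) (by fun_prop) fun w hw => (D.L1_bv hr hw.1).2.1)
    (fun z hz => by
      obtain ⟨⟨k1, k2⟩, k3, k4⟩ := D.L1_bv hr hz
      have k5 := (D.L1_arc hr hz).1.2.1.1
      refine ⟨lipOn_mv k1 k5 _ _ _, lipOn_mv k3 k5 _ _ _, D.mv_le k1 (by simp), ?_,
        D.mv_ge k3 (by rw [sub_half]; exact k4)⟩
      rw [D.mv_ge k1 (by rw [sub_zero]; exact k2), D.mv_le k3 (by simp)])
    (f := fun x => (ContinuousMap.const Circle (x.1 1), x.2)) (g := fun x => D.big2 (x, 1))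
    (fun x hx c hc => Prod.ext (B.loop_ext fun t ht => by
      have k := D.mem_Ls.1 hx.1
      have e : D.bv (x, 0) = x.1 1 := D.mv_le (lam_nb k.1 (k.2.trans_le hr) _ _) (zero_mul _).le
      rw [hc t ht]
      simp only [e, D.mv_self, ite_self]
      rfl) rfl) (fun _ _ => rfl) a
  have s3 : pull (fun x : LS V => cst (bas x)) (D.LsB N r) univ a =
      pull (fun x : LS V => (ContinuousMap.const Circle (x.1 1), x.2)) (D.LsB N r) univ a := by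
    refine LinearMap.congr_fun (pull_htpy'
      (F := fun z : LS V × ℝ => (ContinuousMap.const Circle (z.1.1 1), z.2 * z.1.2))
      (.of_continuous ((ContinuousMap.continuous_const'.comp (by fun_prop)).prodMk (by fun_prop)) _)
      (fun x hx s hs => ?_) (fun _ _ _ _ _ => trivial) (fun x _ => by rw [zero_mul]; rfl)
      fun x _ => by rw [one_mul]) a
    have k := D.mem_Ls.1 hx.1
    have l := mul_le_of_le_one_left k.1.2.1.1 hs.2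
    exact ⟨D.mem_Ls.2 ⟨D.const_Lam (h hx.2) ⟨mul_nonneg hs.1 k.1.2.1.1, l.trans k.1.2.1.2⟩,
      l.trans_lt k.2⟩, hx.2⟩
  rw [pull_pull' (F := fun x => cst (bas x)) (D.ok_bas r) (D.ok_cst h h0) (fun _ _ => rfl), s3,
    s2, ← s1, pull_id]

theorem Ls1_id (hN : IsClosed N) (h : N ⊆ 𝕄.M) (a : H (D.LsB N 1) univ) :
    pull bas (D.LsB N 1) univ (pull cst N univ a) = a := D.Lsr_id hN h one_pos le_rfl a

end TD1

end Pool.Agent.Work.MP_8c604c_gt.OT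
end
end

-- merged part: Pool.Agent.Work.MP_8c604c_gt.OL.Sld
section
/-!
Curve shortening for broken geodesics from a point to a cut point.

PLAN.  `pt3 y u` is the point at arc length `u`; it is `LipOn 1` (`LipOn.ite`, `lipOn_mv`, `mv_ge`, `mv_le`; if a side is zero its end points agree, `d_eq_zero`).
`eqz` slides the two inner points to the positions `len3 / 3` and `2 len / 3`: every new side is at most a convex combination of the old side and `len3 / 3`.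
`cutc` slides them outwards by `eps3` (`mv_lip` with `mv_le`, `mv_ge`; triangle inequality `D.tri`).
`straight`: `exists_mv` gives geodesics `c₁ c₂ c₃` along the sides; if the cut does not shorten, `corner` for `sh (cs (s1 - ε)) c₁` and `c₂` (times `ε`, `s2`) and for
`c₂`, `c₃` (times `s2`, `ε`) shows that the last point is `c₁ (cs (len y))`; `cut_iff`, `cs_eq` and `0 < len < 3 π / 2` give `len3 = π / 2`.
`reach`: `birk_reach` on the compact set of `y` in `AF B` with all sides at most `r = max (largest side of x) ((len x / 3 + π / 2) / 2)` and `len3 y ≤ len x`;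
if the length does not drop then all sides of `eqz (y, 1)` equal `len3 / 3 > 0` (`len_ge`) and `straight` applies.
`thirds_of`: all sides are `π / 6` by `len_ge`, `corner` twice.
`thirds_inj`: `y ↦ lc (y.1, y.2.1)` inverts `thirds` on its image (`lc_eq`, `cont_lc`), so `a` vanishes on the image, hence on `AF B ∩ O` (`exists_nbhd`).  By compactness
the set of `y` with all sides at most `δ / 3` lies in `O` for some `δ > π / 2`.  On `len3 < δ` the class `a = pull (eqz (·, 1)) a` vanishes; `birk_push` with `h = shr`.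
-/

noncomputable section

set_option linter.unusedSectionVars false

namespace Pool.Agent.Work.MP_8c604c_gt.OT

open Set Real Topology Pool.Agent.Work.MP_849ab0_ag.G T

variable {V : Type} [NormedAddCommGroup V] [InnerProductSpace ℝ V] [FiniteDimensional ℝ V]
  {𝕄 : Mf V}

namespace TD1

variable (D : TD1 𝕄) {B : Set V}

/-- the point at arc length `u` -/
def pt3 (y : V4 V) (u : ℝ) : V :=
  if u ≤ D.s1 y then D.mv (y.1, y.2.1) u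
  else if u ≤ D.s1 y + D.s2 y then D.mv (y.2.1, y.2.2.1) (u - D.s1 y)
  else D.mv (y.2.2.1, y.2.2.2) (u - (D.s1 y + D.s2 y))

/-- make the arcs equal -/
def eqz (z : V4 V × ℝ) : V4 V :=
  (z.1.1, D.pt3 z.1 ((1 - z.2) * D.s1 z.1 + z.2 * (D.len3 z.1 / 3)),
    D.pt3 z.1 ((1 - z.2) * (D.s1 z.1 + D.s2 z.1) + z.2 * (2 * D.len3 z.1 / 3)), z.1.2.2.2)

/-- the amount of the cut -/
def eps3 (y : V4 V) : ℝ := min (min (D.s1 y) (D.s3 y)) ((π / 2 - D.s2 y) / 4)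

/-- cut the corners -/
def cutc (z : V4 V × ℝ) : V4 V :=
  (z.1.1, D.mv (z.1.1, z.1.2.1) (D.s1 z.1 - z.2 * D.eps3 z.1),
    D.mv (z.1.2.2.1, z.1.2.2.2) (z.2 * D.eps3 z.1), z.1.2.2.2)

/-- the shortening homotopy -/
def shr (z : V4 V × ℝ) : V4 V := D.cutc (D.eqz z, z.2)

variable {y : V4 V} {s : ℝ}

theorem len_ge (h : y ∈ D.AF B) : π / 2 ≤ D.len3 y := by
  obtain ⟨⟨-, h1, h2, h3⟩, hF⟩ := h
  have e : D.d y.1 y.2.2.2 = π / 2 := D.d_F hF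
  have t1 : D.d y.1 y.2.2.2 ≤ D.d y.1 y.2.1 + D.d y.2.1 y.2.2.2 := D.tri _ h1.1.1 _ h1.1.2 _ h3.1.2
  have t2 : D.d y.2.1 y.2.2.2 ≤ D.d y.2.1 y.2.2.1 + D.d y.2.2.1 y.2.2.2 :=
    D.tri _ h2.1.1 _ h2.1.2 _ h3.1.2
  unfold len3 s1 s2 s3
  linarith

theorem lipOn_pt3 (h : y ∈ D.A3 B) : D.LipOn 1 (D.pt3 y) 0 (D.len3 y) := by
  obtain ⟨⟨n1, -⟩, ⟨n2, -⟩, n3, -⟩ := D.s_mem h
  obtain ⟨-, h1, h2, h3⟩ := h
  have k2 := (lipOn_mv h2 zero_le_one (D.s1 y) (D.s1 y) (D.s1 y + D.s2 y)).ite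
    (lipOn_mv h3 zero_le_one (D.s1 y + D.s2 y) (D.s1 y + D.s2 y) (D.len3 y))
    ((D.mv_ge h2 (by change D.s2 y ≤ _; linarith)).trans (D.mv_le h3 (by linarith)).symm)
  have k1 := (lipOn_mv h1 zero_le_one 0 0 (D.s1 y)).ite k2 (by
    rw [if_pos (by linarith)]
    exact (D.mv_ge h1 (by change D.s1 y ≤ _; linarith)).trans (D.mv_le h2 (by linarith)).symm)
  exact k1.congr fun t _ => by simp only [pt3, one_mul, sub_zero]

theorem pt3_val (h : y ∈ D.A3 B) : D.pt3 y 0 = y.1 ∧ D.pt3 y (D.s1 y) = y.2.1 ∧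
    D.pt3 y (D.s1 y + D.s2 y) = y.2.2.1 ∧ D.pt3 y (D.len3 y) = y.2.2.2 := by
  obtain ⟨⟨n1, -⟩, ⟨n2, -⟩, n3, -⟩ := D.s_mem h
  obtain ⟨-, h1, h2, h3⟩ := h
  have z2 : D.s2 y ≤ 0 → y.2.1 = y.2.2.1 := fun k => D.d_eq_zero h2.1.1 h2.1.2 (k.antisymm n2)
  have z3 : D.s3 y ≤ 0 → y.2.2.1 = y.2.2.2 := fun k => D.d_eq_zero h3.1.1 h3.1.2 (k.antisymm n3)
  have g1 : ∀ u, D.s1 y ≤ u → D.mv (y.1, y.2.1) u = y.2.1 := fun u k => D.mv_ge h1 k
  have g2 : ∀ u, D.s2 y ≤ u → D.mv (y.2.1, y.2.2.1) u = y.2.2.1 := fun u k => D.mv_ge h2 k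
  have g3 : ∀ u, D.s3 y ≤ u → D.mv (y.2.2.1, y.2.2.2) u = y.2.2.2 := fun u k => D.mv_ge h3 k
  refine ⟨?_, ?_, ?_, ?_⟩
  · rw [pt3, if_pos n1]
    exact D.mv_le h1 le_rfl
  · rw [pt3, if_pos le_rfl, g1 _ le_rfl]
  · rw [pt3]
    split_ifs with a b
    · rw [g1 _ (by linarith), z2 (by linarith)]
    · exact g2 _ (by linarith)
    · exact (b le_rfl).elim
  · rw [pt3, len3]
    split_ifs with a b
    · rw [g1 _ (by linarith), z2 (by linarith), z3 (by linarith)]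
    · rw [g2 _ (by linarith), z3 (by linarith)]
    · exact g3 _ (by linarith)

theorem Sld_cont_pt3 {X : Type} [TopologicalSpace X] {A : Set X} {f : X → V4 V} {u : X → ℝ}
    (hf : ContinuousOn f A) (m : MapsTo f A (D.A3 B)) (hu : ContinuousOn u A) :
    ContinuousOn (fun x => D.pt3 (f x) (u x)) A := by
  have c1 := D.cont_s1.comp hf m
  have c2 := D.cont_s2.comp hf m
  have p1 : ContinuousOn (fun x => (f x).1) A := hf.fst
  have p2 : ContinuousOn (fun x => (f x).2.1) A := hf.snd.fst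
  have p3 : ContinuousOn (fun x => (f x).2.2.1) A := hf.snd.snd.fst
  have p4 : ContinuousOn (fun x => (f x).2.2.2) A := hf.snd.snd.snd
  refine contOn_ite (v := fun x => D.s1 (f x)) hu c1 (D.contOn_mv p1 p2 hu fun x k => (m k).2.1)
    (contOn_ite (v := fun x => D.s1 (f x) + D.s2 (f x)) hu (c1.add c2)
      (D.contOn_mv p2 p3 (hu.sub c1) fun x k => (m k).2.2.1)
      (D.contOn_mv p3 p4 (hu.sub (c1.add c2)) fun x k => (m k).2.2.2) fun x k e => ?_)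
    fun x k e => ?_
  · exact (D.mv_ge (m k).2.2.1 (by change D.s2 (f x) ≤ _; linarith)).trans
      (D.mv_le (m k).2.2.2 (by linarith)).symm
  · have := (D.s_mem (m k)).2.1.1
    rw [if_pos (by linarith)]
    exact (D.mv_ge (m k).2.1 (by change D.s1 (f x) ≤ _; linarith)).trans
      (D.mv_le (m k).2.2.1 (by linarith)).symm

theorem cont_eqz : ContinuousOn D.eqz (D.AF B ×ˢ Icc 0 1) := by
  have m : MapsTo Prod.fst (D.AF B ×ˢ Icc (0 : ℝ) 1) (D.A3 B) := fun _ k => k.1.1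
  have c1 := D.cont_s1.comp continuousOn_fst m
  have c2 := D.cont_s2.comp continuousOn_fst m
  have cl := D.cont_len.comp continuousOn_fst m
  have co : ContinuousOn (fun z : V4 V × ℝ => 1 - z.2) (D.AF B ×ˢ Icc (0 : ℝ) 1) := by fun_prop
  exact (by fun_prop : ContinuousOn (fun z : V4 V × ℝ => z.1.1) _).prodMk
    ((D.Sld_cont_pt3 continuousOn_fst m
      ((co.mul c1).add (continuousOn_snd.mul (cl.div_const 3)))).prodMk
    ((D.Sld_cont_pt3 continuousOn_fst m ((co.mul (c1.add c2)).add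
      (continuousOn_snd.mul ((continuousOn_const.mul cl).div_const 3)))).prodMk
    (by fun_prop : ContinuousOn (fun z : V4 V × ℝ => z.1.2.2.2) _)))

theorem Sld_pos (h : y ∈ D.A3 B) (hs : s ∈ Icc (0 : ℝ) 1) :
    0 ≤ (1 - s) * D.s1 y + s * (D.len3 y / 3) ∧
    (1 - s) * D.s1 y + s * (D.len3 y / 3) ≤ (1 - s) * (D.s1 y + D.s2 y) + s * (2 * D.len3 y / 3) ∧
    (1 - s) * (D.s1 y + D.s2 y) + s * (2 * D.len3 y / 3) ≤ D.len3 y := by
  obtain ⟨⟨n1, -⟩, ⟨n2, -⟩, n3, -⟩ := D.s_mem h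
  have a := hs.1
  have b := sub_nonneg.2 hs.2
  have m1 := mul_nonneg a n1
  have m2 := mul_nonneg a n2
  have m3 := mul_nonneg a n3
  have l1 := mul_nonneg b n1
  have l2 := mul_nonneg b n2
  have l3 := mul_nonneg b n3
  unfold len3
  refine ⟨?_, ?_, ?_⟩ <;> nlinarith

theorem eqz_le (h : y ∈ D.A3 B) (hs : s ∈ Icc (0 : ℝ) 1) :
    D.s1 (D.eqz (y, s)) ≤ (1 - s) * D.s1 y + s * (D.len3 y / 3) ∧
    D.s2 (D.eqz (y, s)) ≤ (1 - s) * D.s2 y + s * (D.len3 y / 3) ∧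
    D.s3 (D.eqz (y, s)) ≤ (1 - s) * D.s3 y + s * (D.len3 y / 3) := by
  obtain ⟨a, b, c⟩ := D.Sld_pos h hs
  have L := (D.lipOn_pt3 h).lip
  obtain ⟨v0, -, -, v3⟩ := D.pt3_val h
  have k1 := L _ _ le_rfl a (b.trans c)
  have k2 := L _ _ a b c
  have k3 := L _ _ (a.trans b) c le_rfl
  rw [v0] at k1
  rw [v3] at k3
  refine ⟨k1.trans_eq (by ring), k2.trans_eq (by ring), k3.trans_eq ?_⟩
  unfold len3
  ring

theorem eqz_mem (h : y ∈ D.AF B) (hs : s ∈ Icc (0 : ℝ) 1) : D.eqz (y, s) ∈ D.AF B := by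
  obtain ⟨a, b, c⟩ := D.Sld_pos h.1 hs
  have M := (D.lipOn_pt3 h.1).mem
  obtain ⟨k1, k2, k3⟩ := D.eqz_le h.1 hs
  obtain ⟨⟨-, n1⟩, ⟨-, n2⟩, -, n3⟩ := D.s_mem h.1
  have nl : D.len3 y / 3 < π / 2 := by unfold len3; linarith
  have cv : ∀ u, u < π / 2 → (1 - s) * u + s * (D.len3 y / 3) < π / 2 := fun u k =>
    (convex_Iio (π / 2)) k nl (sub_nonneg.2 hs.2) hs.1 (by ring)
  have m1 := M _ ⟨a, b.trans c⟩
  have m2 := M _ ⟨a.trans b, c⟩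
  exact ⟨⟨h.1.1, D.nb h.1.2.1.1.1 m1 (k1.trans_lt (cv _ n1)), D.nb m1 m2 (k2.trans_lt (cv _ n2)),
    D.nb m2 h.1.2.2.2.1.2 (k3.trans_lt (cv _ n3))⟩, h.2⟩

theorem eqz_zero (h : y ∈ D.A3 B) : D.eqz (y, 0) = y := by
  obtain ⟨-, v1, v2, -⟩ := D.pt3_val h
  simp only [eqz, sub_zero, one_mul, zero_mul, add_zero, v1, v2]

theorem cont_cut : ContinuousOn D.cutc (D.AF B ×ˢ Icc 0 1) := by
  have m : MapsTo Prod.fst (D.AF B ×ˢ Icc (0 : ℝ) 1) (D.A3 B) := fun _ k => k.1.1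
  have c1 := D.cont_s1.comp continuousOn_fst m
  have c2 := D.cont_s2.comp continuousOn_fst m
  have c3 := D.cont_s3.comp continuousOn_fst m
  have ce : ContinuousOn (fun z : V4 V × ℝ => z.2 * D.eps3 z.1) (D.AF B ×ˢ Icc (0 : ℝ) 1) :=
    continuousOn_snd.mul ((c1.inf c3).inf ((continuousOn_const.sub c2).div_const 4))
  exact (by fun_prop : ContinuousOn (fun z : V4 V × ℝ => z.1.1) _).prodMk
    ((D.contOn_mv (by fun_prop) (by fun_prop) (c1.sub ce) fun x k => k.1.1.2.1).prodMk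
    ((D.contOn_mv (by fun_prop) (by fun_prop) ce fun x k => k.1.1.2.2.2).prodMk
    (by fun_prop : ContinuousOn (fun z : V4 V × ℝ => z.1.2.2.2) _)))

theorem Sld_eps (h : y ∈ D.A3 B) (hs : s ∈ Icc (0 : ℝ) 1) :
    0 ≤ s * D.eps3 y ∧ s * D.eps3 y ≤ D.s1 y ∧ s * D.eps3 y ≤ D.s3 y ∧
      s * D.eps3 y ≤ (π / 2 - D.s2 y) / 4 := by
  obtain ⟨⟨n1, -⟩, ⟨-, n2⟩, n3, -⟩ := D.s_mem h
  have e : 0 ≤ D.eps3 y := le_min (le_min n1 n3) (by linarith)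
  have k : s * D.eps3 y ≤ D.eps3 y := mul_le_of_le_one_left e hs.2
  exact ⟨mul_nonneg hs.1 e, k.trans ((min_le_left _ _).trans (min_le_left _ _)),
    k.trans ((min_le_left _ _).trans (min_le_right _ _)), k.trans (min_le_right _ _)⟩

theorem Sld_mv {p q : V} (h : (p, q) ∈ D.Nb) {τ : ℝ} (hτ : τ ∈ Icc 0 (D.d p q)) :
    D.d p (D.mv (p, q) τ) ≤ τ ∧ D.d (D.mv (p, q) τ) q ≤ D.d p q - τ := by
  have k1 := D.mv_lip h 0 τ
  have k2 := D.mv_lip h τ (D.d p q)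
  rw [D.mv_le h le_rfl, zero_sub, abs_neg, abs_of_nonneg hτ.1] at k1
  rw [D.mv_ge h (τ := D.d p q) le_rfl, abs_sub_comm, abs_of_nonneg (sub_nonneg.2 hτ.2)] at k2
  exact ⟨k1, k2⟩

theorem cut_le (h : y ∈ D.A3 B) (hs : s ∈ Icc (0 : ℝ) 1) :
    D.s1 (D.cutc (y, s)) ≤ D.s1 y - s * D.eps3 y ∧ D.s2 (D.cutc (y, s)) ≤ D.s2 y + 2 * (s * D.eps3 y) ∧
    D.s3 (D.cutc (y, s)) ≤ D.s3 y - s * D.eps3 y := by
  obtain ⟨e0, e1, e3, -⟩ := D.Sld_eps h hs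
  obtain ⟨a1, a2⟩ := D.Sld_mv h.2.1 (τ := D.s1 y - s * D.eps3 y) ⟨by linarith, sub_le_self _ e0⟩
  obtain ⟨b1, b2⟩ := D.Sld_mv h.2.2.2 (τ := s * D.eps3 y) ⟨e0, e3⟩
  have m1 := D.mv_mem h.2.1 (D.s1 y - s * D.eps3 y)
  have m2 := D.mv_mem h.2.2.2 (s * D.eps3 y)
  have t1 := D.tri _ m1 _ h.2.2.1.1.1 _ m2
  have t2 := D.tri _ h.2.2.1.1.1 _ h.2.2.1.1.2 _ m2
  refine ⟨a1, t1.trans ?_, b2⟩
  change _ ≤ D.s1 y - _ at a2
  change _ ≤ D.s2 y + _ at t2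
  linarith

theorem cut_mem (h : y ∈ D.AF B) (hs : s ∈ Icc (0 : ℝ) 1) : D.cutc (y, s) ∈ D.AF B := by
  obtain ⟨e0, -, -, e2⟩ := D.Sld_eps h.1 hs
  obtain ⟨k1, k2, k3⟩ := D.cut_le h.1 hs
  obtain ⟨⟨-, n1⟩, ⟨-, n2⟩, -, n3⟩ := D.s_mem h.1
  have m1 := D.mv_mem h.1.2.1 (D.s1 y - s * D.eps3 y)
  have m2 := D.mv_mem h.1.2.2.2 (s * D.eps3 y)
  exact ⟨⟨h.1.1, D.nb h.1.2.1.1.1 m1 (k1.trans_lt (by linarith)),
    D.nb m1 m2 (k2.trans_lt (by linarith)),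
    D.nb m2 h.1.2.2.2.1.2 (k3.trans_lt (by linarith))⟩, h.2⟩

theorem cut_zero (h : y ∈ D.A3 B) : D.cutc (y, 0) = y := by
  have a : D.mv (y.1, y.2.1) (D.s1 y) = y.2.1 := D.mv_ge h.2.1 le_rfl
  have b : D.mv (y.2.2.1, y.2.2.2) 0 = y.2.2.1 := D.mv_le h.2.2.2 le_rfl
  simp only [cutc, zero_mul, sub_zero, a, b]

theorem Sld_chain (h : y ∈ D.A3 B) (h2 : 0 < D.s2 y) {a b : ℝ} (a0 : 0 < a) (a1 : a ≤ D.s1 y)
    (b0 : 0 < b) (b1 : b ≤ D.s3 y) (a2 : a + D.s2 y ≤ π / 2) (b2 : D.s2 y + b ≤ π / 2)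
    (ea : D.d (D.mv (y.1, y.2.1) (D.s1 y - a)) y.2.2.1 = a + D.s2 y)
    (eb : D.d y.2.1 (D.mv (y.2.2.1, y.2.2.2) b) = D.s2 y + b) :
    ∃ c ∈ D.S, c 1 = y.1 ∧ c (cs (D.s1 y)) = y.2.1 ∧ c (cs (D.s1 y + D.s2 y)) = y.2.2.1 ∧
      c (cs (D.len3 y)) = y.2.2.2 := by
  obtain ⟨c1, i1, u1, v1, w1⟩ := D.exists_mv h.2.1
  obtain ⟨c2, i2, u2, v2, -⟩ := D.exists_mv h.2.2.1
  obtain ⟨c3, i3, u3, v3, w3⟩ := D.exists_mv h.2.2.2
  change c1 (cs (D.s1 y)) = y.2.1 at v1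
  change c2 (cs (D.s2 y)) = y.2.2.1 at v2
  change c3 (cs (D.s3 y)) = y.2.2.2 at v3
  change ∀ τ, _ = c1 (cs (min _ (D.s1 y))) at w1
  change ∀ τ, _ = c3 (cs (min _ (D.s3 y))) at w3
  change c2 1 = y.2.1 at u2
  change c3 1 = y.2.2.1 at u3
  have x1 : D.mv (y.1, y.2.1) (D.s1 y - a) = c1 (cs (D.s1 y - a)) := by
    rw [w1, max_eq_left (sub_nonneg.2 a1), min_eq_left (sub_le_self (D.s1 y) a0.le)]
  have x3 : D.mv (y.2.2.1, y.2.2.2) b = c3 (cs b) := by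
    rw [w3, max_eq_left b0.le, min_eq_left b1]
  have r2 : c2 = sh (cs a) (sh (cs (D.s1 y - a)) c1) :=
    D.corner _ (D.inv _ _ i1) _ i2 _ _ a0 h2 a2 (by rw [sh_cs, sub_add_cancel, u2, v1])
      (by rw [sh_at_one, v2, ← x1, ea])
  have r3 : c3 = sh (cs (D.s2 y)) c2 :=
    D.corner _ i2 _ i3 _ _ h2 b0 b2 (by rw [u3, v2]) (by rw [u2, ← x3, eb])
  refine ⟨c1, i1, u1, v1, ?_, ?_⟩
  · rw [← v2, r2, sh_cs, sh_cs]
    congr 2
    ring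
  · rw [← v3, r3, r2, sh_cs, sh_cs, sh_cs, len3]
    congr 2
    ring

theorem straight (h : y ∈ D.AF B) (h1 : 0 < D.s1 y) (h2 : 0 < D.s2 y) (h3 : 0 < D.s3 y)
    (e : D.len3 y ≤ D.len3 (D.cutc (y, 1))) : D.len3 y = π / 2 := by
  have hs : (1 : ℝ) ∈ Icc (0 : ℝ) 1 := ⟨zero_le_one, le_rfl⟩
  obtain ⟨-, e1, e3, e2⟩ := D.Sld_eps h.1 hs
  obtain ⟨k1, k2, k3⟩ := D.cut_le h.1 hs
  obtain ⟨⟨-, n1⟩, ⟨-, n2⟩, -, n3⟩ := D.s_mem h.1
  have e0 : 0 < 1 * D.eps3 y := by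
    rw [one_mul]
    exact lt_min (lt_min h1 h3) (by linarith)
  have k : D.s2 y + 2 * (1 * D.eps3 y) ≤
      D.d (D.mv (y.1, y.2.1) (D.s1 y - 1 * D.eps3 y)) (D.mv (y.2.2.1, y.2.2.2) (1 * D.eps3 y)) := by
    change _ ≤ D.s2 (D.cutc (y, 1))
    unfold len3 at e
    linarith
  generalize 1 * D.eps3 y = ε at e0 e1 e2 e3 k
  obtain ⟨-, a2⟩ := D.Sld_mv h.1.2.1 (τ := D.s1 y - ε) ⟨by linarith, sub_le_self _ e0.le⟩
  obtain ⟨b1, -⟩ := D.Sld_mv h.1.2.2.2 (τ := ε) ⟨e0.le, e3⟩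
  have m1 := D.mv_mem h.1.2.1 (D.s1 y - ε)
  have m2 := D.mv_mem h.1.2.2.2 ε
  have q2 : y.2.1 ∈ 𝕄.M := h.1.2.2.1.1.1
  have q3 : y.2.2.1 ∈ 𝕄.M := h.1.2.2.1.1.2
  have t1 := D.tri _ m1 _ q2 _ m2
  have t2 := D.tri _ q2 _ q3 _ m2
  have t3 := D.tri _ m1 _ q3 _ m2
  have t4 := D.tri _ m1 _ q2 _ q3
  change _ ≤ D.s1 y - _ at a2
  change _ ≤ D.s2 y + _ at t2
  change _ ≤ _ + D.s2 y at t4
  obtain ⟨c, hc, u, -, -, u4⟩ := D.Sld_chain h.1 h2 e0 e1 e0 e3 (by linarith) (by linarith)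
    (by linarith) (by linarith)
  have hF : (c 1, c (cs (D.len3 y))) ∈ D.F := by
    rw [u, u4]
    exact h.2
  refine cs_inj ((D.cut_iff hc).1 hF) (abs_lt.2 ⟨?_, ?_⟩) <;> unfold len3 <;> linarith [pi_pos]

theorem Sld_cont_shr : ContinuousOn D.shr (D.AF B ×ˢ Icc 0 1) :=
  D.cont_cut.comp (D.cont_eqz.prodMk continuousOn_snd) fun _ k => ⟨D.eqz_mem k.1 k.2, k.2⟩

theorem Sld_shr_le (h : y ∈ D.AF B) (hs : s ∈ Icc (0 : ℝ) 1) :
    D.len3 (D.shr (y, s)) ≤ D.len3 y := by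
  obtain ⟨k1, k2, k3⟩ := D.eqz_le h.1 hs
  obtain ⟨j1, j2, j3⟩ := D.cut_le (D.eqz_mem h hs).1 hs
  change D.len3 (D.cutc (D.eqz (y, s), s)) ≤ _
  have e : D.len3 y = D.s1 y + D.s2 y + D.s3 y := rfl
  have : (1 - s) * D.s1 y + s * (D.len3 y / 3) + ((1 - s) * D.s2 y + s * (D.len3 y / 3)) +
      ((1 - s) * D.s3 y + s * (D.len3 y / 3)) = D.len3 y := by rw [e]; ring
  rw [len3]
  linarith

/-- broken geodesics with sides at most `r` -/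
def Sld_K (B : Set V) (r : ℝ) : Set (V4 V) :=
  D.AF B ∩ {x | D.s1 x ≤ r ∧ D.s2 x ≤ r ∧ D.s3 x ≤ r}

theorem Sld_cpt (hB : IsClosed B) {r : ℝ} (hr : r < π / 2) : IsCompact (D.Sld_K B r) := by
  have K : IsCompact (𝕄.M ×ˢ 𝕄.M ×ˢ 𝕄.M ×ˢ 𝕄.M) := 𝕄.cpt.prod (𝕄.cpt.prod (𝕄.cpt.prod 𝕄.cpt))
  have c : ContinuousOn (fun x : V4 V => (D.s1 x, D.s2 x, D.s3 x)) (𝕄.M ×ˢ 𝕄.M ×ˢ 𝕄.M ×ˢ 𝕄.M) :=
    (D.contOn_d (by fun_prop) (by fun_prop) (fun _ k => k.1) fun _ k => k.2.1).prodMk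
      ((D.contOn_d (by fun_prop) (by fun_prop) (fun _ k => k.2.1) fun _ k => k.2.2.1).prodMk
        (D.contOn_d (by fun_prop) (by fun_prop) (fun _ k => k.2.2.1) fun _ k => k.2.2.2))
  have K1 := K.of_isClosed_subset (c.preimage_isClosed_of_isClosed K.isClosed
    (t := Iic r ×ˢ Iic r ×ˢ Iic r) (isClosed_Iic.prod (isClosed_Iic.prod isClosed_Iic)))
    inter_subset_left
  have K2 := K1.inter_right ((hB.preimage continuous_fst).inter D.isClosed_FA)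
  refine (congrArg IsCompact (Set.ext fun x => ⟨?_, ?_⟩)).mp K2
  · rintro ⟨⟨⟨m1, m2, m3, m4⟩, k1, k2, k3⟩, b, f⟩
    exact ⟨⟨⟨b, D.nb m1 m2 (lt_of_le_of_lt k1 hr), D.nb m2 m3 (lt_of_le_of_lt k2 hr),
      D.nb m3 m4 (lt_of_le_of_lt k3 hr)⟩, f⟩, k1, k2, k3⟩
  · rintro ⟨⟨⟨b, m1, m2, m3⟩, f⟩, k⟩
    exact ⟨⟨⟨m1.1.1, m1.1.2, m3.1.1, m3.1.2⟩, k⟩, b, f⟩

theorem reach (hB : IsClosed B) (h : y ∈ D.AF B) {δ : ℝ} (hδ : π / 2 < δ) :
    ∃ n : ℕ, D.len3 ((fun x => D.shr (x, 1))^[n] y) < δ := by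
  obtain ⟨⟨-, n1⟩, ⟨-, n2⟩, -, n3⟩ := D.s_mem h.1
  have nl : D.len3 y / 3 < π / 2 := by unfold len3; linarith
  obtain ⟨r, hr, r1, r2, r3, r4⟩ : ∃ r, r < π / 2 ∧ D.s1 y ≤ r ∧ D.s2 y ≤ r ∧ D.s3 y ≤ r ∧
      (D.len3 y / 3 + π / 2) / 2 ≤ r :=
    ⟨max (max (D.s1 y) (D.s2 y)) (max (D.s3 y) ((D.len3 y / 3 + π / 2) / 2)),
      max_lt (max_lt n1 n2) (max_lt n3 (by linarith)), by simp, by simp, by simp, by simp⟩
  have hs : (1 : ℝ) ∈ Icc (0 : ℝ) 1 := ⟨zero_le_one, le_rfl⟩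
  have K0 := D.Sld_cpt hB hr
  have cl : ContinuousOn D.len3 (D.Sld_K B r) := D.cont_len.mono fun _ k => k.1.1
  have K1 : IsCompact (D.Sld_K B r ∩ D.len3 ⁻¹' Iic (D.len3 y)) :=
    K0.of_isClosed_subset (cl.preimage_isClosed_of_isClosed K0.isClosed isClosed_Iic)
      inter_subset_left
  refine birk_reach K1 (T := fun x => D.shr (x, 1))
    (D.Sld_cont_shr.comp (by fun_prop) fun x k => ⟨k.1.1, hs⟩) (fun x k => ?_)
    (cl.mono inter_subset_left) (fun x k => D.Sld_shr_le k.1.1 hs) (fun x k l => ?_)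
    ⟨⟨h, r1, r2, r3⟩, le_refl (D.len3 y)⟩
  · have m := D.eqz_mem k.1.1 hs
    obtain ⟨k1, k2, k3⟩ := D.eqz_le k.1.1.1 hs
    obtain ⟨j1, j2, j3⟩ := D.cut_le m.1 hs
    obtain ⟨e0, -, -, e2⟩ := D.Sld_eps m.1 hs
    have kl : D.len3 x ≤ D.len3 y := k.2
    refine ⟨⟨D.cut_mem m hs, j1.trans ?_, j2.trans ?_, j3.trans ?_⟩,
      (D.Sld_shr_le k.1.1 hs).trans kl⟩ <;> linarith
  · refine lt_of_not_ge fun g => ?_
    have m := D.eqz_mem k.1.1 hs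
    obtain ⟨k1, k2, k3⟩ := D.eqz_le k.1.1.1 hs
    obtain ⟨j1, j2, j3⟩ := D.cut_le m.1 hs
    have a : D.len3 (D.eqz (x, 1)) ≤ D.len3 x := by rw [len3]; linarith
    have b : D.len3 (D.shr (x, 1)) ≤ D.len3 (D.eqz (x, 1)) := by
      change D.len3 (D.cutc (D.eqz (x, 1), 1)) ≤ _
      rw [len3, len3]
      linarith
    have c : D.len3 x ≤ D.s1 (D.eqz (x, 1)) + D.s2 (D.eqz (x, 1)) + D.s3 (D.eqz (x, 1)) := g.trans b
    have := D.straight m (by linarith [pi_pos]) (by linarith [pi_pos]) (by linarith [pi_pos])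
      (a.trans g)
    linarith

theorem thirds_mem {c : LM V} (h : c ∈ D.Sov B) : thirds c ∈ D.AF B := by
  have p := pi_pos
  have k1 := D.not_cut h.1 (s := 0) (t := π / 6) (abs_lt.2 ⟨by linarith, by linarith⟩)
  rw [cs_zero] at k1
  exact ⟨⟨h.2, k1, D.not_cut h.1 (abs_lt.2 ⟨by linarith, by linarith⟩),
    D.not_cut h.1 (abs_lt.2 ⟨by linarith, by linarith⟩)⟩, D.en_mem h.1⟩

theorem thirds_of (h : y ∈ D.AF B) (h1 : D.s1 y ≤ π / 6) (h2 : D.s2 y ≤ π / 6)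
    (h3 : D.s3 y ≤ π / 6) : ∃ c ∈ D.Sov B, thirds c = y := by
  have p := pi_pos
  have l := D.len_ge h
  rw [len3] at l
  have e1 : D.s1 y = π / 6 := by linarith
  have e2 : D.s2 y = π / 6 := by linarith
  have e3 : D.s3 y = π / 6 := by linarith
  have e : D.d y.1 y.2.2.2 = π / 2 := D.d_F h.2
  have q1 : y.1 ∈ 𝕄.M := h.1.2.1.1.1
  have q2 : y.2.1 ∈ 𝕄.M := h.1.2.1.1.2
  have q3 : y.2.2.1 ∈ 𝕄.M := h.1.2.2.2.1.1
  have q4 : y.2.2.2 ∈ 𝕄.M := h.1.2.2.2.1.2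
  have t1 : _ ≤ D.s1 y + _ := D.tri _ q1 _ q2 _ q4
  have t2 : _ ≤ _ + D.s3 y := D.tri _ q1 _ q3 _ q4
  have t3 : _ ≤ D.s1 y + D.s2 y := D.tri _ q1 _ q2 _ q3
  have t4 : _ ≤ D.s2 y + D.s3 y := D.tri _ q2 _ q3 _ q4
  have a : D.mv (y.1, y.2.1) (D.s1 y - D.s1 y) = y.1 := D.mv_le h.1.2.1 (sub_self _).le
  have b : D.mv (y.2.2.1, y.2.2.2) (D.s3 y) = y.2.2.2 := D.mv_ge h.1.2.2.2 le_rfl
  obtain ⟨c, hc, u1, u2, u3, u4⟩ := D.Sld_chain h.1 (by linarith) (a := D.s1 y) (b := D.s3 y)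
    (by linarith) le_rfl (by linarith) le_rfl (by linarith) (by linarith)
    (by rw [a]; linarith) (by rw [b]; linarith)
  rw [show D.len3 y = π / 2 by rw [len3]; linarith] at u4
  rw [show D.s1 y + D.s2 y = π / 3 by linarith] at u3
  rw [e1] at u2
  exact ⟨c, ⟨hc, by change c 1 ∈ B; rw [u1]; exact h.1.1⟩, by rw [thirds, u1, u2, u3, u4]⟩

theorem ok_thirds : Ok thirds (D.Sov B) univ (D.AF B) univ :=
  .of_mem (.of_continuous continuous_thirds _) (fun _ h => D.thirds_mem h) fun _ _ _ => trivial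

theorem thirds_inj (hB : IsClosed B) {a : H (D.AF B) univ}
    (e : pull thirds (D.Sov B) univ a = 0) : a = 0 := by
  have p := pi_pos
  have hs : (1 : ℝ) ∈ Icc (0 : ℝ) 1 := ⟨zero_le_one, le_rfl⟩
  have hT : IsCompact (thirds '' D.Sov B) := (D.isCompact_SB hB).image continuous_thirds
  have sT : thirds '' D.Sov B ⊆ D.AF B := by
    rintro _ ⟨c, hc, rfl⟩
    exact D.thirds_mem hc
  have g : ∀ c ∈ D.Sov B, D.lc ((thirds c).1, (thirds c).2.1) = c := fun c hc =>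
    D.lc_eq hc.1 (t := π / 6) ⟨by linarith, by linarith⟩
  have og : Ok (fun x : V4 V => D.lc (x.1, x.2.1)) (thirds '' D.Sov B) univ (D.Sov B) univ := by
    refine .of_mem (.of_continuousOn hT.isClosed.isLocallyClosed
      (D.cont_lc.comp (f := fun x : V4 V => (x.1, x.2.1)) (by fun_prop) ?_)) ?_ fun _ _ _ => trivial
    · rintro _ ⟨c, hc, rfl⟩
      exact ⟨(D.thirds_mem hc).1.2.1,
        (D.od_mem hc.1 (t := π / 6) ⟨by linarith, by linarith⟩).2⟩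
    · rintro _ ⟨c, hc, rfl⟩
      change D.lc _ ∈ _
      rw [g c hc]
      exact hc
  have e1 : pull id (thirds '' D.Sov B) univ a = 0 := by
    rw [← pull_pull' og D.ok_thirds (F := id) (by
      rintro _ ⟨c, hc, rfl⟩
      change thirds (D.lc _) = thirds c
      rw [g c hc]), e, map_zero]
  obtain ⟨O, hO, sO, e2⟩ := exists_nbhd sT e1
  have K := (D.Sld_cpt hB (r := π / 4) (by linarith)).diff hO
  have cm : ContinuousOn (fun x => max (D.s1 x) (max (D.s2 x) (D.s3 x))) (D.Sld_K B (π / 4) \ O) :=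
    (D.cont_s1.sup (D.cont_s2.sup D.cont_s3)).mono fun _ k => k.1.1.1
  obtain ⟨r, hr, kr⟩ := K.exists_forall_le' cm (a := π / 6) fun x k => lt_of_not_ge fun l => by
    simp only [max_le_iff] at l
    exact k.2 (sO (D.thirds_of k.1.1 l.1 l.2.1 l.2.2))
  have hδ : π / 2 < 3 * min r (π / 4) := by
    have : π / 6 < min r (π / 4) := lt_min hr (by linarith)
    linarith
  have lcA := D.lc_AF hB
  have cl : ContinuousOn D.len3 (D.AF B) := D.cont_len.mono fun _ k => k.1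
  have lcU : IsLocallyClosed (D.AF B ∩ {x | D.len3 x < 3 * min r (π / 4)}) := by
    obtain ⟨W, hW, eW⟩ := continuousOn_iff'.1 cl _ (isOpen_Iio (a := 3 * min r (π / 4)))
    have : D.AF B ∩ {x | D.len3 x < 3 * min r (π / 4)} = D.AF B ∩ W := by
      rw [inter_comm _ W, ← eW, inter_comm]
      rfl
    rw [this]
    exact lcA.inter hW.isLocallyClosed
  have ce : ContinuousOn D.eqz ((D.AF B ∩ {x | D.len3 x < 3 * min r (π / 4)}) ×ˢ Icc 0 1) :=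
    D.cont_eqz.mono (prod_mono_left inter_subset_left)
  have o1 : Ok (fun x => D.eqz (x, 1)) (D.AF B ∩ {x | D.len3 x < 3 * min r (π / 4)}) univ
      (D.AF B ∩ O) univ := by
    refine .of_mem (.of_continuousOn lcU (ce.comp (by fun_prop) fun x k => ⟨k, hs⟩))
      (fun x k => ⟨D.eqz_mem k.1 hs, by_contra fun n => ?_⟩) fun _ _ _ => trivial
    obtain ⟨k1, k2, k3⟩ := D.eqz_le k.1.1 hs
    have l : D.len3 x < 3 * min r (π / 4) := k.2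
    have a1 := min_le_left r (π / 4)
    have a2 := min_le_right r (π / 4)
    have := kr _ ⟨⟨D.eqz_mem k.1 hs, by linarith, by linarith, by linarith⟩, n⟩
    exact this.not_gt (max_lt (by linarith) (max_lt (by linarith) (by linarith)))
  refine birk_push lcA D.Sld_cont_shr (fun x k t ht => D.cut_mem (D.eqz_mem k ht) ht)
    (fun x k => ?_) cl (fun x k t ht => D.Sld_shr_le k ht) (fun x k => D.reach hB k hδ) ?_
  · change D.cutc (D.eqz (x, 0), 0) = x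
    rw [D.eqz_zero k.1, D.cut_zero k.1]
  · rw [pull_htpy' (f := id) (g := fun x => D.eqz (x, 1)) (Z := univ) (Z' := univ)
      (ext_htpy lcU ce) (fun x k t ht => D.eqz_mem k.1 ht)
      (fun _ _ _ _ _ => trivial) (fun x k => D.eqz_zero k.1.1) fun _ _ => rfl,
      ← pull_pull' (F := fun x => D.eqz (x, 1)) o1 (.id inter_subset_left fun _ _ _ => trivial)
        fun _ _ => rfl, e2, map_zero]

end TD1

end Pool.Agent.Work.MP_8c604c_gt.OT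
end
end
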